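import Mathlib

set_option autoImplicit false

namespace Pool.Agent.Results.MP_acdd82_co.Counterexample

open Set

/-- spanning trees of `K_4`: triples of `Fin 6` other than the four triangles -/
def good6 (T : Finset (Fin 6)) : Prop :=
  T.card = 3 ∧ T ≠ {0, 1, 4} ∧ T ≠ {0, 3, 5} ∧ T ≠ {1, 2, 3} ∧ T ≠ {2, 4, 5}

instance : DecidablePred good6 := fun T => by unfold good6; infer_instance

lemma exch6 : ∀ S T : Finset (Fin 6), good6 S → good6 T → ∀ a ∈ S, a ∉ T →
    ∃ b ∈ T, b ∉ S ∧ good6 (insert b (S.erase a)) := by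
  decide +kernel

/-- the cycle matroid of `K_4` -/
def M6 : Matroid (Fin 6) :=
  Matroid.ofIsBaseOfFinite (E := Set.univ) Set.finite_univ
    (fun B => ∃ T : Finset (Fin 6), (T : Set (Fin 6)) = B ∧ good6 T)
    ⟨_, {0, 1, 2}, rfl, by decide⟩
    (by
      rintro X Y ⟨S, rfl, hS⟩ ⟨T, rfl, hT⟩ a ha
      obtain ⟨b, hb1, hb2, hb3⟩ := exch6 S T hS hT a (by simpa using ha.1) (by simpa using ha.2)
      refine ⟨b, ⟨by simpa using hb1, by simpa using hb2⟩, insert b (S.erase a), ?_, hb3⟩
      simp)
    (fun _ _ => Set.subset_univ _)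

/-- parallel classes of the twelve elements -/
def f : Fin 12 → Fin 6 := ![0, 0, 0, 2, 1, 1, 5, 5, 3, 3, 4, 4]

lemma f_surj : ∀ y : Fin 6, ∃ x, f x = y := by decide

/-- the matroid on twelve elements -/
def N : Matroid (Fin 12) := M6.comap f

/-- Boolean description of the bases -/
def good (T : Finset (Fin 12)) : Prop := T.card = 3 ∧ (T.image f).card = 3 ∧ good6 (T.image f)

instance : DecidablePred good := fun T => by unfold good; infer_instance

lemma isBase_iff (B : Set (Fin 12)) :
    N.IsBase B ↔ ∃ T : Finset (Fin 12), (T : Set (Fin 12)) = B ∧ good T := by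
  unfold N
  rw [Matroid.comap_isBase_iff]
  have hr : f '' (f ⁻¹' M6.E) = M6.E := by
    have : M6.E = Set.univ := rfl
    rw [this]
    simp [Set.range_eq_univ.2 (fun y => f_surj y)]
  rw [hr, Matroid.isBasis_ground_iff]
  have hb : M6.IsBase (f '' B) ↔ ∃ T : Finset (Fin 6), (T : Set (Fin 6)) = f '' B ∧ good6 T :=
    Iff.rfl
  rw [hb]
  constructor
  · rintro ⟨⟨T, hT, hg⟩, hinj, -⟩
    refine ⟨B.toFinite.toFinset, by simp, ?_⟩
    have himg : B.toFinite.toFinset.image f = T := by
      apply Finset.coe_injective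
      rw [Finset.coe_image, Set.Finite.coe_toFinset, hT]
    have hc : (B.toFinite.toFinset.image f).card = B.toFinite.toFinset.card := by
      apply Finset.card_image_of_injOn
      rw [Set.Finite.coe_toFinset]
      exact hinj
    refine ⟨?_, ?_, ?_⟩
    · rw [← hc, himg]; exact hg.1
    · rw [himg]; exact hg.1
    · rw [himg]; exact hg
  · rintro ⟨T, rfl, h1, h2, h3⟩
    refine ⟨⟨T.image f, by simp, h3⟩, ?_, Set.subset_univ _⟩
    have := Finset.card_image_iff.1 (show (T.image f).card = T.card by rw [h1, h2])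
    exact this

/-- three disjoint 4-cycles -/
def adj (i j : Fin 12) : Bool :=
  match i.val, j.val with
  | 0, 1 => true | 1, 0 => true | 0, 2 => true | 2, 0 => true
  | 3, 1 => true | 1, 3 => true | 3, 2 => true | 2, 3 => true
  | 4, 6 => true | 6, 4 => true | 4, 7 => true | 7, 4 => true
  | 5, 6 => true | 6, 5 => true | 5, 7 => true | 7, 5 => true
  | 8, 10 => true | 10, 8 => true | 8, 11 => true | 11, 8 => true
  | 9, 10 => true | 10, 9 => true | 9, 11 => true | 11, 9 => true
  | _, _ => false

/-- the graph -/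
def G : SimpleGraph (Fin 12) where
  Adj i j := adj i j = true
  symm := ⟨by decide⟩
  loopless := ⟨by decide⟩

instance : DecidableRel G.Adj := fun i j => inferInstanceAs (Decidable (adj i j = true))

lemma key3 : ∀ a b c : Fin 12, good {a, b, c} →
    (∀ i ∈ ({a, b, c} : Finset (Fin 12)), ∀ j ∈ ({a, b, c} : Finset (Fin 12)), adj i j = false) →
    (({a, b, c} : Finset (Fin 12)) ∩ {4, 5, 6, 7}).card ≤ 1 ∧
    (({a, b, c} : Finset (Fin 12)) ∩ {8, 9, 10, 11}).card ≤ 1 ∧
    ((({a, b, c} : Finset (Fin 12)) ∩ {4, 5, 6, 7}).card = 1 →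
      (({a, b, c} : Finset (Fin 12)) ∩ {8, 9, 10, 11}).card = 1 →
      ((({a, b, c} : Finset (Fin 12)) ∩ {4, 5, 8, 9}).card
        + (({a, b, c} : Finset (Fin 12)) ∩ {3}).card) % 2 = 0) := by
  decide +kernel

lemma key (T : Finset (Fin 12)) (hT : good T) (h : ∀ i ∈ T, ∀ j ∈ T, adj i j = false) :
    (T ∩ {4, 5, 6, 7}).card ≤ 1 ∧ (T ∩ {8, 9, 10, 11}).card ≤ 1 ∧
    ((T ∩ {4, 5, 6, 7}).card = 1 → (T ∩ {8, 9, 10, 11}).card = 1 →
      ((T ∩ {4, 5, 8, 9}).card + (T ∩ {3}).card) % 2 = 0) := by
  obtain ⟨a, b, c, -, -, -, rfl⟩ := Finset.card_eq_three.1 hT.1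
  exact key3 a b c hT h

lemma sum_inter (T : Fin 4 → Finset (Fin 12)) (hd : Pairwise (Function.onFun Disjoint T))
    (hc : ∀ i, (T i).card = 3) (S : Finset (Fin 12)) : ∑ i, (T i ∩ S).card = S.card := by
  have h1 : (Finset.univ.biUnion T) = Finset.univ := by
    apply Finset.eq_univ_of_card
    rw [Finset.card_biUnion (fun i _ j _ hij => hd hij)]
    simp [hc]
  have h2 : S = Finset.univ.biUnion (fun i => T i ∩ S) := by
    rw [← Finset.biUnion_inter, h1, Finset.univ_inter]
  conv_rhs => rw [h2]
  rw [Finset.card_biUnion]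
  intro i _ j _ hij
  exact (hd hij).mono Finset.inter_subset_left Finset.inter_subset_left

/-- Aharoni and Berger's question has a negative answer for `Δ = 2`: there are a graph `G` on
twelve vertices with maximum degree `2` and a matroid `N` on the same set which has
`4 = 2 * Δ` pairwise disjoint bases and not more, but which does not have four pairwise disjoint
bases that are independent sets of `G`. -/
theorem result :
    ∃ (G : SimpleGraph (Fin 12)) (_ : DecidableRel G.Adj) (N : Matroid (Fin 12)),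
      N.E = Set.univ ∧ G.maxDegree = 2 ∧
      (∃ B : Fin 4 → Set (Fin 12), (∀ i, N.IsBase (B i)) ∧ Pairwise (Function.onFun Disjoint B)) ∧
      (¬ ∃ B : Fin 5 → Set (Fin 12), (∀ i, N.IsBase (B i)) ∧
        Pairwise (Function.onFun Disjoint B)) ∧
      (¬ ∃ B : Fin 4 → Set (Fin 12), (∀ i, N.IsBase (B i)) ∧
        Pairwise (Function.onFun Disjoint B) ∧ ∀ i, G.IsIndepSet (B i)) := by
  refine ⟨G, inferInstance, N, rfl, by decide +kernel, ?_, ?_, ?_⟩
  · refine ⟨fun i => ((![{0, 3, 4}, {1, 5, 8}, {2, 6, 10}, {7, 9, 11}] :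
      Fin 4 → Finset (Fin 12)) i : Set (Fin 12)), fun i => (isBase_iff _).2 ⟨_, rfl, ?_⟩, ?_⟩
    · revert i; decide +kernel
    · intro i j hij
      simp only [Function.onFun, Finset.disjoint_coe]
      revert i j
      decide +kernel
  · rintro ⟨B, hB, hd⟩
    choose T hT hg using fun i => (isBase_iff (B i)).1 (hB i)
    have hd' : Pairwise (Function.onFun Disjoint T) := by
      intro i j hij
      have := hd hij
      simp only [Function.onFun] at this ⊢
      rw [← hT i, ← hT j] at this
      exact_mod_cast this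
    have h1 : (Finset.univ.biUnion T).card = 15 := by
      rw [Finset.card_biUnion (fun i _ j _ hij => hd' hij)]
      simp [fun i => (hg i).1]
    have h2 := Finset.card_le_univ (Finset.univ.biUnion T)
    rw [h1] at h2
    simp at h2
  · rintro ⟨B, hB, hd, hi⟩
    choose T hT hg using fun i => (isBase_iff (B i)).1 (hB i)
    have hd' : Pairwise (Function.onFun Disjoint T) := by
      intro i j hij
      have := hd hij
      simp only [Function.onFun] at this ⊢
      rw [← hT i, ← hT j] at this
      exact_mod_cast this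
    have hc : ∀ i, (T i).card = 3 := fun i => (hg i).1
    have hi' : ∀ i, ∀ x ∈ T i, ∀ y ∈ T i, adj x y = false := by
      intro i x hx y hy
      by_contra hcon
      have h1 := hi i
      rw [← hT i] at h1
      have h2 := h1 (show x ∈ (T i : Set (Fin 12)) from hx) (show y ∈ (T i : Set (Fin 12)) from hy)
      have h3 : adj x y = true := by simpa using hcon
      have hne : x ≠ y := by
        rintro rfl
        exact G.loopless.irrefl x h3
      exact h2 hne h3
    have hk := fun i => key (T i) (hg i) (hi' i)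
    have s1 := sum_inter T hd' hc {4, 5, 6, 7}
    have s2 := sum_inter T hd' hc {8, 9, 10, 11}
    have s3 := sum_inter T hd' hc {4, 5, 8, 9}
    have s4 := sum_inter T hd' hc {3}
    simp only [Fin.sum_univ_four] at s1 s2 s3 s4
    have c1 : ({4, 5, 6, 7} : Finset (Fin 12)).card = 4 := by decide
    have c2 : ({8, 9, 10, 11} : Finset (Fin 12)).card = 4 := by decide
    have c3 : ({4, 5, 8, 9} : Finset (Fin 12)).card = 4 := by decide
    have c4 : ({3} : Finset (Fin 12)).card = 1 := by decide
    rw [c1] at s1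
    rw [c2] at s2
    rw [c3] at s3
    rw [c4] at s4
    obtain ⟨a0, b0, e0⟩ := hk 0
    obtain ⟨a1, b1, e1⟩ := hk 1
    obtain ⟨a2, b2, e2⟩ := hk 2
    obtain ⟨a3, b3, e3⟩ := hk 3
    have f0 := e0 (by omega) (by omega)
    have f1 := e1 (by omega) (by omega)
    have f2 := e2 (by omega) (by omega)
    have f3 := e3 (by omega) (by omega)
    omega

end Pool.Agent.Results.MP_acdd82_co.Counterexample
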